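import Pool.Agent.Helper89.Vol5.Goals

/-! # MP_cd13d2_co : the exact value of `V(5,8)`, packet V58-LD (the distances) -/

set_option autoImplicit false

namespace Pool.Agent.Helper48.Vol5.PkLD

open Set Pool.Agent.Helper86.Poly Pool.Agent.Helper89.Vol5

theorem dist_le {p q : E 5}
    (h : (p 0 - q 0) ^ 2 + (p 1 - q 1) ^ 2 + (p 2 - q 2) ^ 2 + (p 3 - q 3) ^ 2 +
      (p 4 - q 4) ^ 2 ≤ 1) :
    dist p q ≤ 1 := by
  rw [EuclideanSpace.dist_eq, Fin.sum_univ_five, Real.sqrt_le_one]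
  simp only [Real.dist_eq, sq_abs]
  exact h

/-- the difference of the two heights -/
theorem diff_sq {t h y : ℝ} (h0 : 0 ≤ t) (h1 : t ≤ 7 / 10) (hh0 : 0 ≤ h) (hy0 : 0 ≤ y)
    (hh2 : h ^ 2 = 3 / 2 - t ^ 2) (hy2 : y ^ 2 = 5 / 4 - t - t ^ 2) : (h - y) ^ 2 ≤ 3 / 4 := by
  have ht2 : t ^ 2 ≤ 49 / 100 := by nlinarith
  have a1 : 1 ≤ h := by
    by_contra hc
    push Not at hc
    nlinarith
  have a2 : 1 / 5 ≤ y := by
    by_contra hc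
    push Not at hc
    nlinarith
  have a3 : (h - y) * (h + y) = t + 1 / 4 := by linear_combination hh2 - hy2
  have a4 : 0 ≤ h - y := by
    by_contra hc
    push Not at hc
    nlinarith
  have a5 : h - y ≤ 0.8 := by
    by_contra hc
    push Not at hc
    nlinarith
  nlinarith

theorem thm : Pool.Agent.Helper89.Vol5.G_LD := by
  intro t ht i j
  obtain ⟨h0, h1⟩ := ht
  have hr2 : rr ^ 2 = 1 / 2 := Real.sq_sqrt (by norm_num)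
  have hh2 : hh t ^ 2 = 3 / 2 - t ^ 2 := Real.sq_sqrt (by nlinarith)
  have hy2 : yy t ^ 2 = 5 / 4 - t - t ^ 2 := by
    have e : √(6 - (1 + 2 * t) ^ 2) ^ 2 = 6 - (1 + 2 * t) ^ 2 := Real.sq_sqrt (by nlinarith)
    unfold yy
    rw [div_pow, e]
    ring
  have hh0 : 0 ≤ hh t := Real.sqrt_nonneg _
  have hy0 : 0 ≤ yy t := div_nonneg (Real.sqrt_nonneg _) (by norm_num)
  have hd := diff_sq h0 h1 hh0 hy0 hh2 hy2
  obtain ⟨h, hh⟩ : ∃ h, h = hh t := ⟨_, rfl⟩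
  obtain ⟨y, hy⟩ : ∃ y, y = yy t := ⟨_, rfl⟩
  obtain ⟨r, hr⟩ : ∃ r, r = rr := ⟨_, rfl⟩
  have hQ : Q5 t = ![!₂[-(r / 2), 0, -(1 / 2), 0, 0], !₂[-(r / 2), 0, 1 / 2, 0, 0],
      !₂[0, r * (y - h), 0, -(1 / 2), 0], !₂[0, r * (y - h), 0, 1 / 2, 0],
      !₂[r / 2, 0, 0, 0, -(1 / 2)], !₂[r / 2, 0, 0, 0, 1 / 2],
      !₂[r * t, r * y, 0, 0, 0], !₂[-(r * t), r * y, 0, 0, 0]] := by
    rw [hh, hy, hr]
    rfl
  rw [← hh] at hh2 hd
  rw [← hy] at hy2 hd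
  rw [← hr] at hr2
  rw [hQ]
  clear hQ hh hy hr hh0 hy0
  have ht2 : t ^ 2 ≤ 1 / 2 := by nlinarith
  have b1 : r ^ 2 * h ^ 2 = (3 / 2 - t ^ 2) / 2 := by rw [hr2, hh2]; ring
  have b2 : r ^ 2 * y ^ 2 = (5 / 4 - t - t ^ 2) / 2 := by rw [hr2, hy2]; ring
  have b3 : r ^ 2 * t ^ 2 = t ^ 2 / 2 := by rw [hr2]; ring
  have b4 : r ^ 2 * t = t / 2 := by rw [hr2]; ring
  have b5 : r ^ 2 * (h * y) = h * y / 2 := by rw [hr2]; ring
  have b6 : h ^ 2 - 2 * (h * y) + y ^ 2 ≤ 3 / 4 := by linarith [hd]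
  clear hd
  fin_cases i <;> fin_cases j <;> refine dist_le ?_ <;>
    simp only [Fin.zero_eta, Fin.mk_one, Fin.reduceFinMk, Matrix.cons_val, Matrix.cons_val_zero,
      Matrix.cons_val_one, PiLp.toLp_apply] <;> linarith

end Pool.Agent.Helper48.Vol5.PkLD
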